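import Mathlib

/-!
# The Heisenberg group and homomorphisms of groups given by equalities of commutators
-/

set_option autoImplicit false

open scoped commutatorElement

namespace Pool.Agent.Helper4.Heis

/-- the Heisenberg group over `R`: `(a, b, c)` is the matrix with rows `1 a c`, `0 1 b`, `0 0 1` -/
@[ext] structure H3 (R : Type) where
  a : R
  b : R
  c : R

section
variable {R : Type} [CommRing R]

instance : Mul (H3 R) := ⟨fun x y => ⟨x.a + y.a, x.b + y.b, x.c + y.c + x.a * y.b⟩⟩
instance : One (H3 R) := ⟨⟨0, 0, 0⟩⟩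
instance : Inv (H3 R) := ⟨fun x => ⟨-x.a, -x.b, -x.c + x.a * x.b⟩⟩

lemma mul_a (x y : H3 R) : (x * y).a = x.a + y.a := rfl
lemma mul_b (x y : H3 R) : (x * y).b = x.b + y.b := rfl
lemma mul_c (x y : H3 R) : (x * y).c = x.c + y.c + x.a * y.b := rfl
lemma one_a : (1 : H3 R).a = 0 := rfl
lemma one_b : (1 : H3 R).b = 0 := rfl
lemma one_c : (1 : H3 R).c = 0 := rfl
lemma inv_a (x : H3 R) : (x⁻¹).a = -x.a := rfl
lemma inv_b (x : H3 R) : (x⁻¹).b = -x.b := rfl
lemma inv_c (x : H3 R) : (x⁻¹).c = -x.c + x.a * x.b := rfl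

instance : Group (H3 R) where
  mul_assoc x y z := by
    ext <;> simp only [mul_a, mul_b, mul_c] <;> ring
  one_mul x := by
    ext <;> simp only [mul_a, mul_b, mul_c, one_a, one_b, one_c] <;> ring
  mul_one x := by
    ext <;> simp only [mul_a, mul_b, mul_c, one_a, one_b, one_c] <;> ring
  inv_mul_cancel x := by
    ext <;> simp only [mul_a, mul_b, mul_c, one_a, one_b, one_c, inv_a, inv_b, inv_c] <;> ring

/-- the alternating form on the plane -/
def om (v w : R × R) : R := v.1 * w.2 - w.1 * v.2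

/-- projection to the plane -/
def H3.pr (x : H3 R) : R × R := (x.a, x.b)

lemma comm_eq (x y : H3 R) : ⁅x, y⁆ = ⟨0, 0, om x.pr y.pr⟩ := by
  rw [commutatorElement_def]
  ext <;> simp only [mul_a, mul_b, mul_c, inv_a, inv_b, inv_c, om, H3.pr] <;> ring

lemma rel_iff (x y z w : H3 R) :
    ⁅x, y⁆ * ⁅z, w⁆⁻¹ = 1 ↔ om x.pr y.pr = om z.pr w.pr := by
  rw [mul_inv_eq_one, comm_eq, comm_eq]
  constructor
  · intro h
    exact congrArg H3.c h
  · intro h
    rw [h]

/-- an element is its projection and its last coordinate -/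
def H3.equiv : H3 R ≃ (R × R) × R where
  toFun x := (x.pr, x.c)
  invFun p := ⟨p.1.1, p.1.2, p.2⟩
  left_inv x := rfl
  right_inv p := rfl

end

/-- the relations `[x i, x j] = [x k, x l]` for `(i, j, k, l)` in `E` -/
def rels {I : Type} (E : Set (I × I × I × I)) : Set (FreeGroup I) :=
  {r | ∃ t ∈ E, r = ⁅FreeGroup.of t.1, FreeGroup.of t.2.1⁆ *
    ⁅FreeGroup.of t.2.2.1, FreeGroup.of t.2.2.2⁆⁻¹}

/-- the group with generators `x i`, `i : I`, and these relations -/
abbrev Grp (I : Type) (E : Set (I × I × I × I)) : Type := PresentedGroup (rels E)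

/-- homomorphisms of a presented group -/
def homEquiv {I : Type} (rel : Set (FreeGroup I)) (G : Type) [Group G] :
    (PresentedGroup rel →* G) ≃ {f : I → G // ∀ r ∈ rel, FreeGroup.lift f r = 1} where
  toFun φ := ⟨fun i => φ (PresentedGroup.of i), fun r hr => by
    have h1 : FreeGroup.lift (fun i => φ (PresentedGroup.of i)) =
        φ.comp (PresentedGroup.mk rel) := by
      ext i
      simp [PresentedGroup.of]
    rw [h1, MonoidHom.comp_apply, PresentedGroup.one_of_mem hr, map_one]⟩
  invFun f := PresentedGroup.toGroup f.2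
  left_inv φ := by
    ext i
    simp
  right_inv f := by
    apply Subtype.ext
    funext i
    simp

/-- vectors in the plane with the given equalities of minors -/
def MSol (R : Type) [CommRing R] (I : Type) (E : Set (I × I × I × I)) : Type :=
  {v : I → R × R // ∀ t ∈ E, om (v t.1) (v t.2.1) = om (v t.2.2.1) (v t.2.2.2)}

/-- homomorphisms to the Heisenberg group -/
def homH3 (R : Type) [CommRing R] (I : Type) (E : Set (I × I × I × I)) :
    (Grp I E →* H3 R) ≃ MSol R I E × (I → R) where
  toFun φ := (⟨fun i => (φ (PresentedGroup.of i)).pr, fun t ht => by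
    have h1 := ((homEquiv (rels E) (H3 R)) φ).2 _ ⟨t, ht, rfl⟩
    simp only [map_mul, map_commutatorElement, map_inv, FreeGroup.lift_apply_of] at h1
    exact (rel_iff _ _ _ _).1 h1⟩, fun i => (φ (PresentedGroup.of i)).c)
  invFun p := (homEquiv (rels E) (H3 R)).symm ⟨fun i => ⟨(p.1.1 i).1, (p.1.1 i).2, p.2 i⟩, by
    rintro r ⟨t, ht, rfl⟩
    simp only [map_mul, map_commutatorElement, map_inv, FreeGroup.lift_apply_of]
    exact (rel_iff _ _ _ _).2 (p.1.2 t ht)⟩
  left_inv φ := by
    apply (homEquiv (rels E) (H3 R)).injective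
    rw [Equiv.apply_symm_apply]
    rfl
  right_inv p := by
    obtain ⟨⟨v, hv⟩, w⟩ := p
    have h1 : ∀ (f : {f : I → H3 R // ∀ r ∈ rels E, FreeGroup.lift f r = 1}) (i : I),
        (homEquiv (rels E) (H3 R)).symm f (PresentedGroup.of i) = f.1 i := fun f i =>
      congrFun (congrArg Subtype.val ((homEquiv (rels E) (H3 R)).apply_symm_apply f)) i
    refine Prod.ext (Subtype.ext (funext fun i => ?_)) (funext fun i => ?_)
    · show ((homEquiv (rels E) (H3 R)).symm _ (PresentedGroup.of i)).pr = _
      rw [h1]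
      rfl
    · show ((homEquiv (rels E) (H3 R)).symm _ (PresentedGroup.of i)).c = _
      rw [h1]

theorem card_hom (R : Type) [CommRing R] (I : Type) [Finite I] (E : Set (I × I × I × I)) :
    Nat.card (Grp I E →* H3 R) = Nat.card (MSol R I E) * Nat.card R ^ Nat.card I := by
  rw [Nat.card_congr (homH3 R I E), Nat.card_prod, Nat.card_fun]

/-- change of the index type -/
def msolCongr (R : Type) [CommRing R] {I J : Type} (e : I ≃ J) (E : Set (I × I × I × I))
    (E' : Set (J × J × J × J))
    (h : ∀ i j k l : I, (i, j, k, l) ∈ E ↔ (e i, e j, e k, e l) ∈ E') :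
    MSol R I E ≃ MSol R J E' where
  toFun v := ⟨fun j => v.1 (e.symm j), by
    rintro ⟨i, j, k, l⟩ ht
    refine v.2 (e.symm i, e.symm j, e.symm k, e.symm l) ((h _ _ _ _).2 ?_)
    simpa using ht⟩
  invFun v := ⟨fun i => v.1 (e i), by
    rintro ⟨i, j, k, l⟩ ht
    exact v.2 (e i, e j, e k, e l) ((h _ _ _ _).1 ht)⟩
  left_inv v := by
    apply Subtype.ext
    funext i
    simp
  right_inv v := by
    apply Subtype.ext
    funext i
    simp

end Pool.Agent.Helper4.Heis
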