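import Pool.Agent.Helper4.Heis.Scheme

/-!
# All zeta functions from homomorphisms to the Heisenberg group
-/

set_option autoImplicit false

open AlgebraicGeometry Polynomial Pool.Agent.Helper29.Zeta Pool.Agent.Helper50.KR

namespace Pool.Agent.Helper4.Heis

section
variable (hX : ∀ (Y K : Type) [Fintype Y] [Fintype K] (o : Y) (S : Set Y) (cs : K → Con Y),
  MG (fun n => (Nat.card (XSol (FF n) o S cs) : ℤ)))

include hX

theorem mg_zeros' {σ Φ : Type} [Fintype σ] [Fintype Φ] (F : Φ → MvPolynomial σ ℤ) :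
    MG (fun n => (Nat.card {x : σ → FF n // ∀ f, MvPolynomial.aeval x (F f) = 0} : ℤ)) := by
  obtain ⟨Y, K, _, _, o, S, cs, hcs, h⟩ := exists_system F
  refine (hX Y K o S cs).congr fun n _ => ?_
  rw [h]

theorem mero_zcount' {r d : ℕ} {Φ : Type} [Fintype Φ] (c : Φ → Mon r d → ℤ) :
    Mero (fun n => (zcount (FF n) c : ℂ)) := by
  classical
  have h := mg_zeros' hX (σ := Fin r) (Φ := Φ) fun f =>
    ∑ m, MvPolynomial.C (c f m) * ∏ j, MvPolynomial.X j ^ (m j : ℕ)
  refine h.2.congr fun n _ => ?_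
  unfold zcount
  have h1 : (Nat.card {x : Fin r → FF n // ∀ f, MvPolynomial.aeval x
      (∑ m, MvPolynomial.C (c f m) * ∏ j, MvPolynomial.X j ^ (m j : ℕ)) = 0}) =
      (Finset.univ.filter fun x : Fin r → FF n => ∀ f, pval c f x = 0).card := by
    rw [← Fintype.card_subtype, ← Nat.card_eq_fintype_card]
    refine Nat.card_congr (Equiv.subtypeEquivRight fun x => ?_)
    refine forall_congr' fun f => ?_
    unfold pval mval
    rw [map_sum]
    simp only [map_mul, map_prod, map_pow, MvPolynomial.aeval_X, MvPolynomial.aeval_C]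
    exact Iff.rfl
  beta_reduce
  rw [h1]
  push_cast
  rfl

theorem mero_cnt' (A : Type) [CommRing A] [Algebra.FiniteType ℤ A] (I : Ideal A) :
    Mero (fun n => (cnt A I n : ℂ)) := by
  obtain ⟨r, d, C, Φ, _, c, hC, h⟩ := exists_presentation A I
  refine (mero_zcount' hX c).congr fun n _ => ?_
  rw [h n]

/-- it suffices to treat systems of additions and multiplications -/
theorem all_of_XSol (X : Scheme.{0}) (f : X ⟶ Spec (CommRingCat.of ℤ))
    (hf : LocallyOfFiniteType f) (hq : QuasiCompact f) : ZetaMero X :=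
  geom_main (fun A _ I => mero_cnt' hX A I) X f

end

/-- the scheme of homomorphisms from `Γ` to the Heisenberg group -/
noncomputable def HomScheme (Γ : Type) [Group Γ] : Scheme.{0} :=
  Spec (CommRingCat.of (HomRing Γ))

lemma cnt_hom (Γ : Type) [Group Γ] (n : ℕ) :
    cnt (HomRing Γ) ⊥ n = Nat.card (Γ →* H3 (FF n)) := by
  unfold cnt
  congr 1
  rw [← Nat.card_congr (pointsEquiv (Γ := Γ) (FF n))]
  refine Nat.card_congr
    { toFun := fun φ => φ.1
      invFun := fun φ => ⟨φ, bot_le⟩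
      left_inv := fun φ => rfl
      right_inv := fun φ => rfl }

instance (I : Type) [Finite I] (E : Set (I × I × I × I)) : Group.FG (Grp I E) :=
  QuotientGroup.fg (Subgroup.normalClosure (rels E))

lemma fg_hom (Γ : Type) [Group Γ] [Group.FG Γ] :
    @Algebra.FiniteType ℤ (HomRing Γ) _ _ (Ring.toIntAlgebra (HomRing Γ)) := by
  have h1 : Algebra.FiniteType ℤ (HomRing Γ) := finiteType Γ
  have e := Subsingleton.elim (Ideal.Quotient.algebra ℤ : Algebra ℤ (HomRing Γ))
    (Ring.toIntAlgebra (HomRing Γ))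
  exact e ▸ h1

lemma mero_hom (Γ : Type) [Group Γ] [Group.FG Γ] (h : ZetaMero (HomScheme Γ)) :
    Mero (fun n => ((Nat.card (Γ →* H3 (FF n)) : ℤ) : ℂ)) := by
  have := fg_hom Γ
  refine (mero_of_spec (HomRing Γ) h).congr fun n _ => ?_
  rw [cnt_hom]
  push_cast
  rfl

lemma card_H3 (n : ℕ) (hn : IsPrimePow n) : Nat.card (H3 (FF n)) = n ^ 3 := by
  rw [Nat.card_congr (H3.equiv (R := FF n)), Nat.card_prod, Nat.card_prod, card_FF hn]
  ring

lemma growth_hom (I : Type) [Finite I] (E : Set (I × I × I × I)) :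
    Growth (fun n => ((Nat.card (Grp I E →* H3 (FF n)) : ℤ) : ℂ)) := by
  refine growth_nat (3 * Nat.card I) fun n hn => ?_
  have hfin : Finite (H3 (FF n)) := Finite.of_equiv _ (H3.equiv (R := FF n)).symm
  rw [Nat.card_congr (homEquiv (rels E) (H3 (FF n)))]
  refine (Nat.card_le_card_of_injective (Subtype.val : {f : I → H3 (FF n) // _} → _)
    Subtype.val_injective).trans (le_of_eq ?_)
  rw [Nat.card_fun, card_H3 n hn, ← pow_mul]

lemma mg_hom (I : Type) [Finite I] (E : Set (I × I × I × I)) (h : ZetaMero (HomScheme (Grp I E))) :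
    MG (fun n => (Nat.card (Grp I E →* H3 (FF n)) : ℤ)) :=
  ⟨growth_hom I E, mero_hom _ h⟩

/-- the groups with generators `x 0, ..., x (N - 1)` and relations `[x i, x j] = [x k, x l]` -/
abbrev FGrp (N : ℕ) (E : Finset (Fin N × Fin N × Fin N × Fin N)) : Type :=
  Grp (Fin N) (E : Set (Fin N × Fin N × Fin N × Fin N))

section
variable (hyp : ∀ (N : ℕ) (E : Finset (Fin N × Fin N × Fin N × Fin N)),
  ZetaMero (HomScheme (FGrp N E)))

include hyp

/-- the hypothesis for arbitrary finite index types, in terms of matrices -/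
lemma mg_msol (I : Type) [Finite I] (E : Set (I × I × I × I)) :
    MG (fun n => ((Nat.card (MSol (FF n) I E) * n ^ Nat.card I : ℕ) : ℤ)) := by
  classical
  obtain ⟨N, ⟨e⟩⟩ := Finite.exists_equiv_fin I
  have hN : Nat.card I = N := by
    rw [Nat.card_congr e, Nat.card_eq_fintype_card, Fintype.card_fin]
  let E' : Finset (Fin N × Fin N × Fin N × Fin N) :=
    Finset.univ.filter fun t => (e.symm t.1, e.symm t.2.1, e.symm t.2.2.1, e.symm t.2.2.2) ∈ E
  refine (mg_hom (Fin N) _ (hyp N E')).congr fun n hn => ?_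
  have h1 := card_hom (FF n) (Fin N) (E' : Set (Fin N × Fin N × Fin N × Fin N))
  rw [card_FF hn, Nat.card_eq_fintype_card (α := Fin N), Fintype.card_fin] at h1
  rw [h1, hN]
  congr 2
  refine (Nat.card_congr (msolCongr (FF n) e E _ fun i j k l => ?_)).symm
  simp [E']

theorem mg_XSol_heis (Y K : Type) [Fintype Y] [Fintype K] (o : Y) (S : Set Y) (cs : K → Con Y) :
    MG (fun n => (Nat.card (XSol (FF n) o S cs) : ℤ)) := by
  have hg : Growth (fun n => ((Nat.card (XSol (FF n) o S cs) : ℤ) : ℂ)) :=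
    growth_card Y fun n x => x o = 1 ∧ (∀ y ∈ S, x y = 0) ∧ ∀ c, (cs c).Holds o x
  set a := Nat.card (Gen Y K) with ha
  have hP : ((X ^ 2 - C 1 : ℤ[X]) * ((X ^ 2 - X) * X ^ a)).Monic := by
    refine (monic_X_pow_sub_C 1 two_ne_zero).mul (Monic.mul ?_ (monic_X_pow a))
    refine monic_X_pow_sub ?_
    rw [degree_X]
    norm_num
  have h1 := (mg_msol hyp (Gen Y K) (GR o S cs)).sub (mg_msol hyp (Gen Y K) (GR1 o S cs))
  refine MG.of_monic hg hP (h1.congr fun n hn => ?_)
  have h2 := card_split (k := FF n) o S cs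
  have h3 := card_frm (FF n)
  rw [card_FF hn] at h3
  have h4 : 1 ≤ n ^ 2 := Nat.one_le_pow _ _ hn.pos
  have h5 : n ≤ n ^ 2 := Nat.le_self_pow two_ne_zero n
  rw [h2, h3, ← ha]
  push_cast [Nat.cast_sub h4, Nat.cast_sub h5]
  simp only [eval_mul, eval_sub, eval_pow, eval_X, eval_C]
  ring

/-- **Main theorem**, the non-trivial direction. -/
theorem all_of_heis (X : Scheme.{0}) (f : X ⟶ Spec (CommRingCat.of ℤ))
    (hf : LocallyOfFiniteType f) (hq : QuasiCompact f) : ZetaMero X :=
  all_of_XSol (fun Y K _ _ o S cs => mg_XSol_heis hyp Y K o S cs) X f hf hq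

end

/-- the trivial direction -/
theorem heis_of_all
    (h : ∀ (X : Scheme.{0}) (f : X ⟶ Spec (CommRingCat.of ℤ)),
      LocallyOfFiniteType f → QuasiCompact f → ZetaMero X)
    (Γ : Type) [Group Γ] [Group.FG Γ] : ZetaMero (HomScheme Γ) := by
  have h1 : Algebra.FiniteType ℤ (HomRing Γ) := finiteType Γ
  unfold HomScheme
  refine h _ (Spec.map (CommRingCat.ofHom (algebraMap ℤ (HomRing Γ)))) ?_ inferInstance
  rw [HasRingHomProperty.Spec_iff (P := @LocallyOfFiniteType)]
  exact RingHom.finiteType_algebraMap.mpr h1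

end Pool.Agent.Helper4.Heis
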