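import Pool.Agent.Helper4.Heis.Univ

/-!
# The scheme of homomorphisms to the Heisenberg group
-/

set_option autoImplicit false

open MvPolynomial AlgebraicGeometry Pool.Agent.Helper29.Zeta

namespace Pool.Agent.Helper4.Heis

section
variable (Γ : Type) [Group Γ]

/-- the universal matrix of the element `g` -/
noncomputable def U (g : Γ) : Matrix (Fin 3) (Fin 3) (MvPolynomial (Γ × Fin 3) ℤ) :=
  !![1, X (g, 0), X (g, 2); 0, 1, X (g, 1); 0, 0, 1]

/-- the ideal of all entries of `U g * U h - U (g * h)` -/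
noncomputable def homIdeal : Ideal (MvPolynomial (Γ × Fin 3) ℤ) :=
  Ideal.span {p | ∃ (g h : Γ) (i j : Fin 3), p = (U Γ g * U Γ h - U Γ (g * h)) i j}

/-- the coordinate ring -/
abbrev HomRing : Type := MvPolynomial (Γ × Fin 3) ℤ ⧸ homIdeal Γ

variable {Γ}

/-- the nontrivial entries -/
lemma U_entry (g h : Γ) (i j : Fin 3) : (U Γ g * U Γ h - U Γ (g * h)) i j =
    if i = 0 ∧ j = 1 then X (g, 0) + X (h, 0) - X (g * h, 0) else
    if i = 1 ∧ j = 2 then X (g, 1) + X (h, 1) - X (g * h, 1) else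
    if i = 0 ∧ j = 2 then X (g, 2) + X (h, 2) + X (g, 0) * X (h, 1) - X (g * h, 2) else 0 := by
  unfold U
  fin_cases i <;> fin_cases j <;>
    simp <;> ring

/-- homomorphisms of rings that kill the ideal -/
lemma kills_iff {R : Type} [CommRing R] (φ : MvPolynomial (Γ × Fin 3) ℤ →+* R) :
    (∀ p ∈ homIdeal Γ, φ p = 0) ↔
      ∀ g h : Γ, (⟨φ (X (g * h, 0)), φ (X (g * h, 1)), φ (X (g * h, 2))⟩ : H3 R) =
        ⟨φ (X (g, 0)), φ (X (g, 1)), φ (X (g, 2))⟩ *
        ⟨φ (X (h, 0)), φ (X (h, 1)), φ (X (h, 2))⟩ := by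
  constructor
  · intro h1 g h
    have h2 : ∀ i j, φ ((U Γ g * U Γ h - U Γ (g * h)) i j) = 0 := fun i j =>
      h1 _ (Ideal.subset_span ⟨g, h, i, j, rfl⟩)
    have e1 := h2 0 1
    have e2 := h2 1 2
    have e3 := h2 0 2
    rw [U_entry] at e1 e2 e3
    simp at e1 e2 e3
    ext
    · show φ (X (g * h, 0)) = φ (X (g, 0)) + φ (X (h, 0))
      linear_combination -e1
    · show φ (X (g * h, 1)) = φ (X (g, 1)) + φ (X (h, 1))
      linear_combination -e2
    · show φ (X (g * h, 2)) = φ (X (g, 2)) + φ (X (h, 2)) + φ (X (g, 0)) * φ (X (h, 1))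
      linear_combination -e3
  · intro h1 p hp
    have h2 : homIdeal Γ ≤ RingHom.ker φ := by
      unfold homIdeal
      rw [Ideal.span_le]
      rintro _ ⟨g, h, i, j, rfl⟩
      show φ _ = 0
      have h3 := h1 g h
      have e1 : φ (X (g * h, 0)) = φ (X (g, 0)) + φ (X (h, 0)) := congrArg H3.a h3
      have e2 : φ (X (g * h, 1)) = φ (X (g, 1)) + φ (X (h, 1)) := congrArg H3.b h3
      have e3 : φ (X (g * h, 2)) = φ (X (g, 2)) + φ (X (h, 2)) + φ (X (g, 0)) * φ (X (h, 1)) :=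
        congrArg H3.c h3
      rw [U_entry]
      split_ifs
      · rw [map_sub, map_add, e1]; ring
      · rw [map_sub, map_add, e2]; ring
      · rw [map_sub, map_add, map_add, map_mul, e3]; ring
      · exact map_zero φ
    exact h2 hp

/-- **points of the scheme**: homomorphisms from `Γ` to the Heisenberg group -/
noncomputable def pointsEquiv (R : Type) [CommRing R] : (HomRing Γ →+* R) ≃ (Γ →* H3 R) where
  toFun φ := MonoidHom.mk' (fun g => ⟨φ (Ideal.Quotient.mk _ (X (g, 0))),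
    φ (Ideal.Quotient.mk _ (X (g, 1))), φ (Ideal.Quotient.mk _ (X (g, 2)))⟩) (fun g h => by
      refine (kills_iff (φ.comp (Ideal.Quotient.mk (homIdeal Γ)))).1 (fun p hp => ?_) g h
      rw [RingHom.comp_apply, Ideal.Quotient.eq_zero_iff_mem.2 hp, map_zero])
  invFun ρ := Ideal.Quotient.lift (homIdeal Γ)
    (MvPolynomial.eval₂Hom (Int.castRingHom R) fun p => ![(ρ p.1).a, (ρ p.1).b, (ρ p.1).c] p.2)
    (by
      rw [kills_iff]
      intro g h
      simp only [MvPolynomial.coe_eval₂Hom, MvPolynomial.eval₂_X, map_mul]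
      rfl)
  left_inv φ := by
    refine Ideal.Quotient.ringHom_ext ?_
    refine MvPolynomial.ringHom_ext' (RingHom.ext_int _ _) ?_
    rintro ⟨g, i⟩
    fin_cases i
    · show eval₂ _ _ (X (g, 0)) = _
      rw [eval₂_X]
      rfl
    · show eval₂ _ _ (X (g, 1)) = _
      rw [eval₂_X]
      rfl
    · show eval₂ _ _ (X (g, 2)) = _
      rw [eval₂_X]
      rfl
  right_inv ρ := by
    ext g
    · show eval₂ _ _ (X (g, 0)) = _
      rw [eval₂_X]
      rfl
    · show eval₂ _ _ (X (g, 1)) = _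
      rw [eval₂_X]
      rfl
    · show eval₂ _ _ (X (g, 2)) = _
      rw [eval₂_X]
      rfl

lemma rel_quot (g h : Γ) :
    (⟨Ideal.Quotient.mk (homIdeal Γ) (X (g * h, 0)), Ideal.Quotient.mk (homIdeal Γ) (X (g * h, 1)),
      Ideal.Quotient.mk (homIdeal Γ) (X (g * h, 2))⟩ : H3 (HomRing Γ)) =
      ⟨Ideal.Quotient.mk (homIdeal Γ) (X (g, 0)), Ideal.Quotient.mk (homIdeal Γ) (X (g, 1)),
      Ideal.Quotient.mk (homIdeal Γ) (X (g, 2))⟩ *
      ⟨Ideal.Quotient.mk (homIdeal Γ) (X (h, 0)), Ideal.Quotient.mk (homIdeal Γ) (X (h, 1)),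
      Ideal.Quotient.mk (homIdeal Γ) (X (h, 2))⟩ :=
  (kills_iff (Ideal.Quotient.mk (homIdeal Γ))).1
    (fun p hp => Ideal.Quotient.eq_zero_iff_mem.2 hp) g h

/-- the universal homomorphism -/
noncomputable def univHom : Γ →* H3 (HomRing Γ) := pointsEquiv (HomRing Γ) (RingHom.id _)

/-- the elements of the Heisenberg group with coordinates in a subring -/
def subH3 {R : Type} [CommRing R] (T : Subalgebra ℤ R) : Subgroup (H3 R) where
  carrier := {x | x.a ∈ T ∧ x.b ∈ T ∧ x.c ∈ T}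
  mul_mem' {x y} hx hy := ⟨T.add_mem hx.1 hy.1, T.add_mem hx.2.1 hy.2.1,
    T.add_mem (T.add_mem hx.2.2 hy.2.2) (T.mul_mem hx.1 hy.2.1)⟩
  one_mem' := ⟨T.zero_mem, T.zero_mem, T.zero_mem⟩
  inv_mem' {x} hx := ⟨T.neg_mem hx.1, T.neg_mem hx.2.1,
    T.add_mem (T.neg_mem hx.2.2) (T.mul_mem hx.1 hx.2.1)⟩

variable (Γ)

/-- finite generation of the coordinate ring -/
theorem finiteType [Group.FG Γ] : Algebra.FiniteType ℤ (HomRing Γ) := by
  classical
  obtain ⟨S, hS⟩ := (Group.FG.out : (⊤ : Subgroup Γ).FG)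
  let s : Finset (HomRing Γ) := (S ×ˢ Finset.univ).image
    fun p : Γ × Fin 3 => Ideal.Quotient.mk (homIdeal Γ) (X p)
  refine ⟨⟨s, ?_⟩⟩
  set T := Algebra.adjoin ℤ (s : Set (HomRing Γ)) with hT
  have hmem : ∀ p ∈ S, ∀ i : Fin 3, Ideal.Quotient.mk (homIdeal Γ) (X (p, i)) ∈ T := by
    intro p hp i
    refine Algebra.subset_adjoin ?_
    rw [Finset.mem_coe, Finset.mem_image]
    exact ⟨(p, i), Finset.mem_product.2 ⟨hp, Finset.mem_univ _⟩, rfl⟩
  have h1 : ∀ g : Γ, univHom g ∈ subH3 T := by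
    intro g
    have h2 : g ∈ Subgroup.closure (S : Set Γ) := by
      rw [hS]
      exact Subgroup.mem_top g
    have h3 : Subgroup.closure (S : Set Γ) ≤ (subH3 T).comap univHom := by
      rw [Subgroup.closure_le]
      intro p hp
      exact ⟨hmem p hp 0, hmem p hp 1, hmem p hp 2⟩
    exact h3 h2
  rw [eq_top_iff]
  rintro x -
  obtain ⟨p, rfl⟩ := Ideal.Quotient.mk_surjective x
  induction p using MvPolynomial.induction_on with
  | C a =>
    have h2 : (Ideal.Quotient.mk (homIdeal Γ)) (C a) = algebraMap ℤ (HomRing Γ) a := by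
      rw [eq_intCast C a, map_intCast, eq_intCast (algebraMap ℤ (HomRing Γ))]
    rw [h2]
    exact T.algebraMap_mem a
  | add p q hp hq =>
    rw [map_add]
    exact T.add_mem hp hq
  | mul_X p i hp =>
    rw [map_mul]
    refine T.mul_mem hp ?_
    obtain ⟨g, i⟩ := i
    fin_cases i
    · exact (h1 g).1
    · exact (h1 g).2.1
    · exact (h1 g).2.2

end

end Pool.Agent.Helper4.Heis
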