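import Pool.Agent.Helper4.Heis.Group
import Pool.Agent.Helper50.KR.Main

/-!
# Additions and multiplications by equalities of minors of `2 x N` matrices
-/

set_option autoImplicit false

open Pool.Agent.Helper50.KR Pool.Agent.Helper29.Zeta

namespace Pool.Agent.Helper4.Heis

section
variable {Y K : Type}

/-- first argument -/
def cp : Con Y → Y
  | .add a _ _ => a
  | .mul a _ _ => a

/-- second argument -/
def cq : Con Y → Y
  | .add _ b _ => b
  | .mul _ b _ => b

/-- generators -/
abbrev Gen (Y K : Type) : Type := (Bool × Y) ⊕ Option K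

def gA (y : Y) : Gen Y K := Sum.inl (false, y)
def gB (y : Y) : Gen Y K := Sum.inl (true, y)
def gD : Gen Y K := Sum.inr none
def gU (c : K) : Gen Y K := Sum.inr (some c)

/-- relations -/
inductive GRel (o : Y) (S : Set Y) (cs : K → Con Y) :
    Gen Y K × Gen Y K × Gen Y K × Gen Y K → Prop
  | a (y : Y) : GRel o S cs (gA o, gA y, gA o, gA o)
  | b (y : Y) : GRel o S cs (gB o, gB y, gA o, gA o)
  | ab (y : Y) : GRel o S cs (gA y, gB o, gA o, gB y)
  | s (y : Y) (hy : y ∈ S) : GRel o S cs (gA y, gB o, gA o, gA o)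
  | d1 : GRel o S cs (gD, gB o, gA o, gB o)
  | d2 : GRel o S cs (gD, gA o, gA o, gB o)
  | u1 (c : K) : GRel o S cs (gU c, gB o, gA (cp (cs c)), gB o)
  | u2 (c : K) : GRel o S cs (gA o, gU c, gA o, gB (cq (cs c)))
  | add (c : K) (p q r : Y) (h : cs c = .add p q r) : GRel o S cs (gD, gU c, gA r, gB o)
  | mul (c : K) (p q r : Y) (h : cs c = .mul p q r) : GRel o S cs (gA p, gB q, gA r, gB o)

/-- the set of relations -/
def GR (o : Y) (S : Set Y) (cs : K → Con Y) : Set (Gen Y K × Gen Y K × Gen Y K × Gen Y K) :=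
  {t | GRel o S cs t}

variable {k : Type} [Field k]

lemma om_self (v : k × k) : om v v = 0 := by
  unfold om; ring

lemma cramer (e f w : k × k) (h : om e f ≠ 0) :
    w = (om w f / om e f) • e + (om e w / om e f) • f := by
  obtain ⟨e1, e2⟩ := e
  obtain ⟨f1, f2⟩ := f
  obtain ⟨w1, w2⟩ := w
  unfold om at *
  simp only at h
  apply Prod.ext
  · simp only [Prod.fst_add, Prod.smul_fst, smul_eq_mul]
    rw [div_mul_eq_mul_div, div_mul_eq_mul_div, ← add_div, eq_div_iff h]
    ring
  · simp only [Prod.snd_add, Prod.smul_snd, smul_eq_mul]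
    rw [div_mul_eq_mul_div, div_mul_eq_mul_div, ← add_div, eq_div_iff h]
    ring

lemma om_comb (e f : k × k) (a b c d : k) :
    om (a • e + b • f) (c • e + d • f) = (a * d - c * b) * om e f := by
  unfold om
  simp only [Prod.fst_add, Prod.smul_fst, Prod.snd_add, Prod.smul_snd, smul_eq_mul]
  ring

/-- the vectors -/
def vec (cs : K → Con Y) (g : (k × k) × (k × k)) (x : Y → k) : Gen Y K → k × k
  | Sum.inl (false, y) => x y • g.1
  | Sum.inl (true, y) => x y • g.2
  | Sum.inr none => g.1 - g.2
  | Sum.inr (some c) => x (cp (cs c)) • g.1 + x (cq (cs c)) • g.2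

lemma vec_A (cs : K → Con Y) (g : (k × k) × (k × k)) (x : Y → k) (y : Y) :
    vec cs g x (gA y) = x y • g.1 + (0 : k) • g.2 := by
  rw [zero_smul, add_zero]; rfl

lemma vec_B (cs : K → Con Y) (g : (k × k) × (k × k)) (x : Y → k) (y : Y) :
    vec cs g x (gB y) = (0 : k) • g.1 + x y • g.2 := by
  rw [zero_smul, zero_add]; rfl

lemma vec_D (cs : K → Con Y) (g : (k × k) × (k × k)) (x : Y → k) :
    vec cs g x gD = (1 : k) • g.1 + (-1 : k) • g.2 := by
  rw [one_smul, neg_one_smul, ← sub_eq_add_neg]; rfl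

lemma vec_U (cs : K → Con Y) (g : (k × k) × (k × k)) (x : Y → k) (c : K) :
    vec cs g x (gU c) = x (cp (cs c)) • g.1 + x (cq (cs c)) • g.2 := rfl

lemma vec_mem (o : Y) (S : Set Y) (cs : K → Con Y) (g : (k × k) × (k × k)) (x : Y → k)
    (h1 : x o = 1) (h2 : ∀ y ∈ S, x y = 0) (h3 : ∀ c, (cs c).Holds o x) :
    ∀ t ∈ GR o S cs, om (vec cs g x t.1) (vec cs g x t.2.1) =
      om (vec cs g x t.2.2.1) (vec cs g x t.2.2.2) := by
  intro t ht
  cases ht with
  | a y => simp only [vec_A, om_comb]; ring
  | b y => simp only [vec_A, vec_B, om_comb]; ring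
  | ab y => simp only [vec_A, vec_B, om_comb]; ring
  | s y hy => simp only [vec_A, vec_B, om_comb, h2 y hy]; ring
  | d1 => simp only [vec_A, vec_B, vec_D, om_comb, h1]; ring
  | d2 => simp only [vec_A, vec_B, vec_D, om_comb, h1]; ring
  | u1 c => simp only [vec_A, vec_B, vec_U, om_comb, h1]; ring
  | u2 c => simp only [vec_A, vec_B, vec_U, om_comb, h1]; ring
  | add c p q r h =>
    have h4 := h3 c
    rw [h] at h4
    have h5 : x p + x q = x r := h4
    simp only [vec_A, vec_B, vec_D, vec_U, om_comb, h1, h, cp, cq, ← h5]; ring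
  | mul c p q r h =>
    have h4 := h3 c
    rw [h] at h4
    have h5 : x p * x q = x r * x o := h4
    simp only [vec_A, vec_B, om_comb, ← h5]
    try ring

/-- the pairs of linearly independent vectors -/
abbrev Frm (k : Type) [Field k] : Type := {g : (k × k) × (k × k) // om g.1 g.2 ≠ 0}

theorem card_frame (o : Y) (S : Set Y) (cs : K → Con Y) :
    Nat.card {v : MSol k (Gen Y K) (GR o S cs) // om (v.1 (gA o)) (v.1 (gB o)) ≠ 0} =
      Nat.card (Frm k) * Nat.card (XSol k o S cs) := by
  rw [← Nat.card_prod]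
  symm
  have hdet : ∀ (g : (k × k) × (k × k)) (x : Y → k), x o = 1 →
      om (vec cs g x (gA o)) (vec cs g x (gB o)) = om g.1 g.2 := by
    intro g x hx
    rw [vec_A, vec_B, om_comb, hx]
    ring
  refine Nat.card_eq_of_bijective (fun p => ⟨⟨vec cs p.1.1 p.2.1,
    vec_mem o S cs p.1.1 p.2.1 p.2.2.1 p.2.2.2.1 p.2.2.2.2⟩, by
      rw [hdet _ _ p.2.2.1]
      exact p.1.2⟩) ⟨?_, ?_⟩
  · rintro ⟨⟨⟨e, f⟩, hg⟩, ⟨x, hx⟩⟩ ⟨⟨⟨e', f'⟩, hg'⟩, ⟨x', hx'⟩⟩ h
    have h0 : vec cs (e, f) x = vec cs (e', f') x' := congrArg (fun v => v.1.1) h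
    have h1 : x o • e = x' o • e' := congrFun h0 (gA o)
    have h2 : x o • f = x' o • f' := congrFun h0 (gB o)
    rw [hx.1, hx'.1, one_smul, one_smul] at h1 h2
    subst h1
    subst h2
    have h3 : x = x' := by
      funext y
      have h4 : x y • e = x' y • e := congrFun h0 (gA y)
      have h5 : om (x y • e) f = om (x' y • e) f := by rw [h4]
      have h6 : ∀ a : k, om (a • e) f = a * om e f := by
        intro a
        unfold om
        simp only [Prod.smul_fst, Prod.smul_snd, smul_eq_mul]
        ring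
      rw [h6, h6] at h5
      exact mul_right_cancel₀ hg h5
    subst h3
    rfl
  · rintro ⟨⟨v, hv⟩, hd⟩
    replace hd : om (v (gA o)) (v (gB o)) ≠ 0 := hd
    obtain ⟨e, he⟩ : ∃ e, v (gA o) = e := ⟨_, rfl⟩
    obtain ⟨f, hf⟩ : ∃ f, v (gB o) = f := ⟨_, rfl⟩
    have hv' : ∀ i j l m, GRel o S cs (i, j, l, m) → om (v i) (v j) = om (v l) (v m) :=
      fun i j l m h => hv (i, j, l, m) h
    have ra := fun y => hv' _ _ _ _ (GRel.a y)
    have rb := fun y => hv' _ _ _ _ (GRel.b y)
    have rab := fun y => hv' _ _ _ _ (GRel.ab y)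
    have rs := fun y hy => hv' _ _ _ _ (GRel.s y hy)
    have rd1 := hv' _ _ _ _ GRel.d1
    have rd2 := hv' _ _ _ _ GRel.d2
    have ru1 := fun c => hv' _ _ _ _ (GRel.u1 c)
    have ru2 := fun c => hv' _ _ _ _ (GRel.u2 c)
    have radd := fun c p q r h => hv' _ _ _ _ (GRel.add c p q r h)
    have rmul := fun c p q r h => hv' _ _ _ _ (GRel.mul c p q r h)
    simp only [he, hf, om_self] at ra rb rab rs rd1 rd2 ru1 ru2 radd rmul hd
    have hsym : ∀ w w' : k × k, om w w' = - om w' w := by
      intro w w'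
      unfold om
      ring
    set x : Y → k := fun y => om (v (gA y)) f / om e f with hx
    have hA : ∀ y, v (gA y) = x y • e := by
      intro y
      have h1 := cramer e f (v (gA y)) hd
      rw [ra y, zero_div, zero_smul, add_zero] at h1
      exact h1
    have hB : ∀ y, v (gB y) = x y • f := by
      intro y
      have h1 := cramer e f (v (gB y)) hd
      rw [hsym (v (gB y)) f, rb y, neg_zero, zero_div, zero_smul, zero_add, ← rab y] at h1
      exact h1
    have hD : v gD = e - f := by
      have h1 := cramer e f (v gD) hd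
      rw [rd1, hsym e (v gD), rd2, neg_div, div_self hd, one_smul, neg_one_smul,
        ← sub_eq_add_neg] at h1
      exact h1
    have hU : ∀ c, v (gU c) = x (cp (cs c)) • e + x (cq (cs c)) • f := by
      intro c
      have h1 := cramer e f (v (gU c)) hd
      rw [ru1 c, ru2 c, ← rab] at h1
      exact h1
    have hvx : vec cs (e, f) x = v := by
      funext i
      match i with
      | Sum.inl (false, y) => exact (hA y).symm
      | Sum.inl (true, y) => exact (hB y).symm
      | Sum.inr none => exact hD.symm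
      | Sum.inr (some c) => exact (hU c).symm
    have hxo : x o = 1 := by
      show om (v (gA o)) f / om e f = 1
      rw [he]
      exact div_self hd
    refine ⟨⟨⟨(e, f), hd⟩, ⟨x, hxo, ?_, ?_⟩⟩, Subtype.ext (Subtype.ext hvx)⟩
    · intro y hy
      show om (v (gA y)) f / om e f = 0
      rw [rs y hy, zero_div]
    · intro c
      rcases hc : cs c with ⟨p, q, r⟩ | ⟨p, q, r⟩
      · show x p + x q = x r
        have h1 := radd c p q r hc
        rw [← hf, ← hvx, vec_D, vec_U, vec_A, vec_B, om_comb, om_comb, hxo, hc] at h1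
        have h2 : (x p + x q) * om e f = x r * om e f := by
          simp only [cp, cq] at h1
          linear_combination h1
        exact mul_right_cancel₀ hd h2
      · show x p * x q = x r * x o
        have h1 := rmul c p q r hc
        rw [← hf, ← hvx, vec_A, vec_B, vec_A, vec_B, om_comb, om_comb] at h1
        have h2 : (x p * x q) * om e f = (x r * x o) * om e f := by
          linear_combination h1
        exact mul_right_cancel₀ hd h2

/-- one more relation -/
def GR1 (o : Y) (S : Set Y) (cs : K → Con Y) : Set (Gen Y K × Gen Y K × Gen Y K × Gen Y K) :=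
  GR o S cs ∪ {(gA o, gB o, gA o, gA o)}

theorem card_split [Finite k] [Finite Y] [Finite K] (o : Y) (S : Set Y) (cs : K → Con Y) :
    Nat.card (MSol k (Gen Y K) (GR o S cs)) = Nat.card (MSol k (Gen Y K) (GR1 o S cs)) +
      Nat.card (Frm k) * Nat.card (XSol k o S cs) := by
  classical
  have hfin : Finite (MSol k (Gen Y K) (GR o S cs)) := by
    unfold MSol
    infer_instance
  rw [← card_frame o S cs]
  have h1 : Nat.card (MSol k (Gen Y K) (GR1 o S cs)) =
      Nat.card {v : MSol k (Gen Y K) (GR o S cs) // om (v.1 (gA o)) (v.1 (gB o)) = 0} := by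
    refine Nat.card_congr
      { toFun := fun v => ⟨⟨v.1, fun t ht => v.2 t (Or.inl ht)⟩, ?_⟩
        invFun := fun v => ⟨v.1.1, ?_⟩
        left_inv := fun v => rfl
        right_inv := fun v => rfl }
    · have h2 := v.2 (gA o, gB o, gA o, gA o) (Or.inr rfl)
      rw [om_self] at h2
      exact h2
    · rintro t (ht | ht)
      · exact v.1.2 t ht
      · rw [Set.mem_singleton_iff] at ht
        subst ht
        show om (v.1.1 (gA o)) (v.1.1 (gB o)) = om (v.1.1 (gA o)) (v.1.1 (gA o))
        rw [om_self]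
        exact v.2
  rw [h1, ← Nat.card_sum]
  exact Nat.card_congr (Equiv.sumCompl (fun v : MSol k (Gen Y K) (GR o S cs) =>
    om (v.1 (gA o)) (v.1 (gB o)) = 0)).symm

/-- the number of bases of the plane -/
theorem card_frm (k : Type) [Field k] [Finite k] :
    Nat.card (Frm k) = (Nat.card k ^ 2 - 1) * (Nat.card k ^ 2 - Nat.card k) := by
  have := Fintype.ofFinite k
  have h1 := Matrix.card_GL_field (𝔽 := k) 2
  rw [Fin.prod_univ_two] at h1
  simp only [Fin.val_zero, Fin.val_one, pow_zero, pow_one] at h1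
  rw [Nat.card_eq_fintype_card (α := k), ← h1]
  refine Nat.card_congr
    { toFun := fun g => Matrix.GeneralLinearGroup.mkOfDetNeZero
        !![g.1.1.1, g.1.1.2; g.1.2.1, g.1.2.2] ?_
      invFun := fun M => ⟨((M.1 0 0, M.1 0 1), (M.1 1 0, M.1 1 1)), ?_⟩
      left_inv := fun g => ?_
      right_inv := fun M => ?_ }
  · rw [Matrix.det_fin_two_of]
    have h2 := g.2
    unfold om at h2
    intro h3
    apply h2
    linear_combination h3
  · have h2 : M.1.det ≠ 0 := (Matrix.isUnits_det_units M).ne_zero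
    rw [Matrix.det_fin_two] at h2
    unfold om
    intro h3
    apply h2
    linear_combination h3
  · rfl
  · apply Units.ext
    ext i j
    fin_cases i <;> fin_cases j <;> rfl

end

end Pool.Agent.Helper4.Heis
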